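import Pool.Agent.helper54.XP.SpecL

/-! Module INJ of project xp: injectivity of the iterates. -/

set_option autoImplicit false

open Complex Metric Set Filter Topology MeasureTheory XP
open V3S (UF)

noncomputable section

namespace XPL

/-- a map `x + v x`, `v` small on the larger ball, is injective on the smaller one. -/
theorem INJ_aux (F v : ℂ → ℂ) (ρ C : ℝ) (hv : Differentiable ℂ v)
    (hb : ∀ x ∈ ball (0 : ℂ) (ρ + 1), ‖v x‖ ≤ C) (hF : ∀ x, F x = x + v x) (hl : 2 * C < 1) :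
    InjOn F (ball 0 ρ) := by
  have hd : ∀ x ∈ ball (0 : ℂ) ρ, ‖deriv v x‖ ≤ 2 * C := by
    intro x hx
    have h := Complex.norm_deriv_le_of_forall_mem_sphere_norm_le (c := x) (R := 1 / 2) (C := C)
      (f := v) (by norm_num) hv.diffContOnCl (by
        intro z hz
        apply hb
        rw [mem_sphere, dist_eq_norm] at hz
        rw [mem_ball, dist_zero_right] at hx ⊢
        calc ‖z‖ = ‖(z - x) + x‖ := by rw [sub_add_cancel]
          _ ≤ ‖z - x‖ + ‖x‖ := norm_add_le _ _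
          _ < ρ + 1 := by rw [hz]; linarith)
    calc ‖deriv v x‖ ≤ C / (1 / 2) := h
      _ = 2 * C := by ring
  intro x hx y hy hxy
  have hL : ‖v y - v x‖ ≤ 2 * C * ‖y - x‖ :=
    (convex_ball (0 : ℂ) ρ).norm_image_sub_le_of_norm_deriv_le
      (fun z _ => hv.differentiableAt) hd hx hy
  rw [hF, hF] at hxy
  have h1 : y - x = -(v y - v x) := by linear_combination -hxy
  have h2 : ‖y - x‖ ≤ 2 * C * ‖y - x‖ := by
    calc ‖y - x‖ = ‖v y - v x‖ := by rw [h1, norm_neg]
      _ ≤ 2 * C * ‖y - x‖ := hL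
  have h3 : ‖y - x‖ = 0 := by
    by_contra hne
    have hpos : 0 < ‖y - x‖ := lt_of_le_of_ne (norm_nonneg _) (Ne.symm hne)
    have h4 : 2 * C * ‖y - x‖ < 1 * ‖y - x‖ := mul_lt_mul_of_pos_right hl hpos
    linarith
  exact (sub_eq_zero.mp (norm_eq_zero.mp h3)).symm

theorem INJ (hDSP : DSP_stmt) (hBA1 : BA1_stmt) : INJ_stmt := by
  intro n C D hH hS ρ hρ
  obtain ⟨C', hC'0, hC'⟩ := hDSP n C D hH hS (ρ + 1) (by linarith)
  obtain ⟨A, -, hgood⟩ := hH.seq.good
  have hde : Tendsto (fun m => 2 * (C' * (D m).de)) UF (𝓝 0) := by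
    have := (hH.par.de1.const_mul C').const_mul 2
    rwa [mul_zero, mul_zero] at this
  have hev : ∀ᶠ m in UF, 2 * (C' * (D m).de) < 1 := hde.eventually (gt_mem_nhds one_pos)
  filter_upwards [hC', hev] with m hm hm1 j hj
  obtain ⟨-, -, -, -, -, hadd, hdiff, -⟩ := hBA1 n C (A m) (D m) (hgood m)
  have hK : InjOn ((D m).F (D m).K) (ball 0 ρ) :=
    INJ_aux _ (fun x => (D m).F (D m).K x - x) ρ (C' * (D m).de)
      ((hdiff _).sub differentiable_id) hm (fun x => (add_sub_cancel x _).symm) hm1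
  intro x hx y hy hxy
  apply hK hx hy
  have e : (D m).K = ((D m).K - j) + j := by omega
  have e2 : ∀ z, (D m).F (D m).K z = (D m).F ((D m).K - j) ((D m).F j z) := by
    intro z
    rw [← hadd, ← e]
  rw [e2, e2, hxy]

end XPL
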