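import Pool.Agent.helper60.XP.SpecT

/-! Module STA of project xp: the start in case A. -/

set_option autoImplicit false

open Complex Metric Set Filter Topology MeasureTheory
open V3S (UF)
open XP

noncomputable section

namespace XPT

lemma STA_diff (D : Dat) (j : ℕ) : Differentiable ℂ (D.F j) := by
  have h : Differentiable ℂ ((fun z : ℂ => D.f.eval z)^[j]) :=
    (Polynomial.differentiable D.f).iterate j
  have h2 : Differentiable ℂ (fun x : ℂ => D.b 0 + D.sg * x) :=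
    (differentiable_id.const_mul D.sg).const_add (D.b 0)
  have h3 : D.F j = fun x => (((fun z : ℂ => D.f.eval z)^[j]) (D.b 0 + D.sg * x) - D.b 0) / D.sg := rfl
  rw [h3]
  exact ((h.comp h2).sub_const _).div_const _

lemma STA_F0 (D : Dat) (hsg : D.sg ≠ 0) (x : ℂ) : D.F 0 x = x := by
  have h3 : D.F 0 x = ((D.b 0 + D.sg * x) - D.b 0) / D.sg := rfl
  rw [h3, add_sub_cancel_left, mul_div_cancel_left₀ _ hsg]

/-- the displacement of `F k` is small -/
lemma STA_disp (D : Dat) (hga : D.GA) (y : ℂ) (hy : y ∈ ball (0 : ℂ) 1) :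
    ‖D.F D.k y - y‖ ≤ 2 * ‖D.lam‖ * ‖y‖ := by
  have hlam : D.lam ≠ 0 := by
    intro h
    have := hga.lam0
    rw [h] at this
    simp at this
  have h1 : ‖D.v y‖ ≤ 2 * ‖y‖ := by
    have h2 := hga.near y hy
    have h3 : ‖D.v y‖ ≤ ‖D.v y - y‖ + ‖y‖ := by
      have := norm_add_le (D.v y - y) y
      rwa [sub_add_cancel] at this
    have := norm_nonneg y
    linarith
  have h4 : D.F D.k y - y = D.lam * D.v y := by
    unfold Dat.v
    rw [mul_div_cancel₀ _ hlam]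
  rw [h4, norm_mul]
  nlinarith [norm_nonneg D.lam]

/-- the final estimate -/
lemma STA_est (a q : ℂ) (l ρ κ M : ℝ) (hρ : 0 < ρ) (hκ : 0 < κ) (hM : 0 ≤ M)
    (ha : ‖a - 1‖ ≤ 2 * l / ρ) (hl1 : 2 * l / ρ ≤ 1)
    (hq1 : ‖q - 1‖ ≤ 2 * M * l / κ) (hq : ‖q‖ ≤ M / κ) (hl : 0 ≤ l) :
    ‖a ^ 2 * q - 1‖ ≤ (6 * M / (ρ * κ) + 2 * M / κ) * l := by
  have h1 : a ^ 2 * q - 1 = (a - 1) * (a - 1 + 2) * q + (q - 1) := by ring
  have h2 : ‖(a - 1 + 2 : ℂ)‖ ≤ 3 := by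
    have := norm_add_le (a - 1) (2 : ℂ)
    have h3 : ‖(2 : ℂ)‖ = 2 := by simp
    rw [h3] at this
    linarith
  have h4 : 0 ≤ 2 * l / ρ := by positivity
  have h5 : 0 ≤ M / κ := by positivity
  rw [h1]
  calc ‖(a - 1) * (a - 1 + 2) * q + (q - 1)‖ ≤ ‖(a - 1) * (a - 1 + 2) * q‖ + ‖q - 1‖ := norm_add_le _ _
    _ = ‖a - 1‖ * ‖(a - 1 + 2 : ℂ)‖ * ‖q‖ + ‖q - 1‖ := by rw [norm_mul, norm_mul]
    _ ≤ (2 * l / ρ) * 3 * (M / κ) + 2 * M * l / κ := by
      refine add_le_add ?_ hq1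
      refine mul_le_mul ?_ hq (norm_nonneg _) (by positivity)
      exact mul_le_mul ha h2 (norm_nonneg _) h4
    _ = (6 * M / (ρ * κ) + 2 * M / κ) * l := by
      field_simp
      ring

theorem STA (hDIS : DIS_stmt) (hCTS : CTS_stmt) (hCHX : CHX_stmt) (hBCV : BCV_stmt)
    (hINVG : INVG_stmt) : STA_stmt := by
  intro n C C' D hC hseq hA hParA hPar hLB
  obtain ⟨c, CK, hDis⟩ := hDIS C hC
  obtain ⟨Am, -, hgood⟩ := hseq.good
  have hdis : ∀ m, Dis (D m) c CK := fun m => hDis n (Am m) (D m) (hgood m)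
  have hc0 : 0 < c := (hdis 0).pos
  have hc4 : c ≤ 1 / 4 := (hdis 0).le
  obtain ⟨hopen, -, hK⟩ := hBCV n C D hseq hLB
  -- the base point
  have hacc : ∀ᶠ y in 𝓝[≠] (0 : ℂ), y ∈ Reg D ∧ ‖y‖ < c / 2 := by
    have h1 := hLB.acc 0
    have h2 : ∀ᶠ y in 𝓝[≠] (0 : ℂ), ‖y‖ < c / 2 := by
      have h3 : ∀ᶠ y in 𝓝 (0 : ℂ), ‖y‖ < c / 2 := by
        have h4 := ball_mem_nhds (0 : ℂ) (show (0 : ℝ) < c / 2 by linarith)
        filter_upwards [h4] with y hy
        simpa using hy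
      exact h3.filter_mono nhdsWithin_le_nhds
    filter_upwards [h1, h2] with y h3 h4
    exact ⟨h3, h4⟩
  obtain ⟨x₀, hx₀R, hx₀c⟩ := hacc.exists
  obtain ⟨ρ₀, hρ₀, hρ₀R⟩ := Metric.isOpen_iff.1 hopen x₀ hx₀R
  obtain ⟨ρ, hρ, hρ1, hρ2⟩ : ∃ ρ > (0 : ℝ), 2 * ρ < ρ₀ ∧ 2 * ρ < c / 2 :=
    ⟨min (ρ₀ / 4) (c / 8), lt_min (by linarith) (by linarith), by
      have := min_le_left (ρ₀ / 4) (c / 8)
      linarith, by
      have := min_le_right (ρ₀ / 4) (c / 8)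
      linarith⟩
  have hKR : closedBall x₀ (2 * ρ) ⊆ Reg D := fun y hy =>
    hρ₀R (by rw [mem_closedBall] at hy; rw [mem_ball]; linarith)
  have hKc : closedBall x₀ (2 * ρ) ⊆ ball (0 : ℂ) c := by
    intro y hy
    rw [mem_closedBall, dist_eq_norm] at hy
    rw [mem_ball, dist_zero_right]
    calc ‖y‖ = ‖(y - x₀) + x₀‖ := by rw [sub_add_cancel]
      _ ≤ ‖y - x₀‖ + ‖x₀‖ := norm_add_le _ _
      _ < c := by linarith
  obtain ⟨r, hr, C₂, hC₂, hchart⟩ := hCHX n C D hseq hLB x₀ hx₀R ρ hρ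
  obtain ⟨κ, hκ, M, hBd⟩ := hK (closedBall x₀ (2 * ρ)) (isCompact_closedBall _ _) hKR
  have hM : 0 ≤ M := by
    obtain ⟨m, hm⟩ := hBd.exists
    exact le_trans (norm_nonneg _) (hm x₀ (mem_closedBall_self (by linarith))).2.2.1
  -- constants
  have hC'1 : 1 ≤ C' := hA.C1
  set L : ℝ := 6 * M / (ρ * κ) + 2 * M / κ with hL
  have hL0 : 0 ≤ L := by rw [hL]; positivity
  set C₃ : ℝ := 2 + L + C' / (Real.pi * r ^ 2) with hC₃
  have hpr : 0 < Real.pi * r ^ 2 := by positivity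
  have hC₃2 : 2 ≤ C₃ := by
    have : 0 ≤ C' / (Real.pi * r ^ 2) := by positivity
    rw [hC₃]
    linarith
  obtain ⟨C'', hC'', hcts⟩ := hCTS c CK C₂ C₃ r hC₂ (by linarith) hr
  refine ⟨x₀, hx₀R, r, hr, C'', hC'', ?_⟩
  -- smallness of lam
  have hlamT : Tendsto (fun m => ‖(D m).lam‖) UF (𝓝 0) := by
    have := (hA.lim.mono_left V3S.UF_le).norm
    rwa [norm_zero] at this
  have hsm : ∀ δ > (0 : ℝ), ∀ᶠ m in UF, ‖(D m).lam‖ < δ := fun δ hδ =>
    hlamT.eventually (gt_mem_nhds hδ)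
  have hδ : 0 < min (min (1 / 100) (ρ / 4)) (r / (20 * C₂)) := by positivity
  filter_upwards [hchart, hBd, hsm _ hδ] with m hchm hBm hlm
  obtain ⟨χ, hnat, hval, haff, hmp, hsg⟩ := hchm
  have hl1 : ‖(D m).lam‖ < 1 / 100 :=
    lt_of_lt_of_le hlm (le_trans (min_le_left _ _) (min_le_left _ _))
  have hl2 : ‖(D m).lam‖ < ρ / 4 :=
    lt_of_lt_of_le hlm (le_trans (min_le_left _ _) (min_le_right _ _))
  have hl3 : ‖(D m).lam‖ < r / (20 * C₂) := lt_of_lt_of_le hlm (min_le_right _ _)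
  have hl0 : 0 ≤ ‖(D m).lam‖ := norm_nonneg _
  have hG := hgood m
  have hsg0 : (D m).sg ≠ 0 := by
    unfold Dat.sg
    exact_mod_cast (hG.Rpos 0).ne'
  -- the inverse branch
  obtain ⟨Ψ, hΨd, -, hΨ⟩ := hINVG ((D m).F (D m).k) (STA_diff (D m) _).differentiableOn (by
    intro y hy
    have h1 := STA_disp (D m) (hA.ga m) y hy
    have h2 : 2 * ‖(D m).lam‖ * ‖y‖ ≤ 2 * (1 / 100) * ‖y‖ :=
      mul_le_mul_of_nonneg_right (by linarith) (norm_nonneg _)
    have h3 : 2 * (1 / 100 : ℝ) * ‖y‖ = ‖y‖ / 50 := by ring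
    linarith)
  have hin : ∀ x ∈ ball x₀ (2 * ρ), x ∈ ball (0 : ℂ) (1 / 2) := by
    intro x hx
    have h1 := hKc (ball_subset_closedBall hx)
    rw [mem_ball] at h1 ⊢
    linarith
  have hΨ2 : ∀ x ∈ ball x₀ (2 * ρ), ‖Ψ x - x‖ ≤ 2 * ‖(D m).lam‖ := by
    intro x hx
    obtain ⟨h1, h2, -⟩ := hΨ x (hin x hx)
    have h3 := STA_disp (D m) (hA.ga m) (Ψ x) h1
    rw [h2] at h3
    rw [mem_ball, dist_zero_right] at h1
    have h4 : 2 * ‖(D m).lam‖ * ‖Ψ x‖ ≤ 2 * ‖(D m).lam‖ * 1 :=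
      mul_le_mul_of_nonneg_left h1.le (by linarith)
    rw [norm_sub_rev]
    linarith
  have hsub : ball x₀ ρ ⊆ ball x₀ (2 * ρ) := ball_subset_ball (by linarith)
  have hΨd2 : DifferentiableOn ℂ Ψ (ball x₀ (2 * ρ)) := hΨd.mono (fun x hx => hin x hx)
  have hΨin : ∀ x ∈ ball x₀ ρ, Ψ x ∈ ball x₀ (2 * ρ) := by
    intro x hx
    have h1 := hΨ2 x (hsub hx)
    rw [mem_ball, dist_eq_norm] at hx ⊢
    calc ‖Ψ x - x₀‖ = ‖(Ψ x - x) + (x - x₀)‖ := by rw [sub_add_sub_cancel]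
      _ ≤ ‖Ψ x - x‖ + ‖x - x₀‖ := norm_add_le _ _
      _ < 2 * ρ := by linarith
  have hderiv : ∀ x ∈ ball x₀ ρ, ‖deriv Ψ x - 1‖ ≤ 2 * ‖(D m).lam‖ / ρ := by
    intro x hx
    have hxd : DifferentiableAt ℂ Ψ x := hΨd2.differentiableAt (isOpen_ball.mem_nhds (hsub hx))
    have h1 : deriv (fun y => Ψ y - y) x = deriv Ψ x - 1 := by
      have h := hxd.hasDerivAt.sub (hasDerivAt_id x)
      exact h.deriv
    have hbs : ball x ρ ⊆ ball x₀ (2 * ρ) := by
      intro y hy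
      rw [mem_ball] at hx hy ⊢
      calc dist y x₀ ≤ dist y x + dist x x₀ := dist_triangle _ _ _
        _ < 2 * ρ := by linarith
    rw [← h1]
    -- Cauchy on all smaller radii
    have hall : ∀ t : ℝ, 0 < t → t < ρ → ‖deriv (fun y => Ψ y - y) x‖ ≤ 2 * ‖(D m).lam‖ / t := by
      intro t ht htρ
      have hcb : closedBall x t ⊆ ball x₀ (2 * ρ) :=
        (closedBall_subset_ball htρ).trans hbs
      refine Complex.norm_deriv_le_of_forall_mem_sphere_norm_le ht ?_ ?_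
      · have hd : DifferentiableOn ℂ (fun y => Ψ y - y) (closedBall x t) :=
          (hΨd2.mono hcb).sub differentiableOn_id
        have hcl : closure (ball x t) ⊆ closedBall x t := closure_ball_subset_closedBall
        exact (hd.mono hcl).diffContOnCl
      · intro z hz
        exact hΨ2 z (hcb (sphere_subset_closedBall hz))
    by_contra hcon
    have hcon' : 2 * ‖(D m).lam‖ / ρ < ‖deriv (fun y => Ψ y - y) x‖ := lt_of_not_ge hcon
    have hN : 0 < ‖deriv (fun y => Ψ y - y) x‖ := lt_of_le_of_lt (by positivity) hcon'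
    have h2 : 2 * ‖(D m).lam‖ / ‖deriv (fun y => Ψ y - y) x‖ < ρ := by
      rw [div_lt_iff₀ hρ] at hcon'
      rw [div_lt_iff₀ hN]
      linarith
    obtain ⟨t, ht1, ht2⟩ := exists_between h2
    have ht0 : 0 < t := lt_of_le_of_lt (by positivity) ht1
    have h3 := hall t ht0 ht2
    rw [div_lt_iff₀ hN] at ht1
    rw [le_div_iff₀ ht0] at h3
    linarith
  have hlρ : 2 * ‖(D m).lam‖ / ρ ≤ 1 / 2 := by
    rw [div_le_iff₀ hρ]
    linarith
  have hN1 : (D m).N = 1 := hParA.N1 m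
  have hKk : (D m).K = (D m).k := by
    unfold Dat.K
    rw [hN1, one_mul]
  have hSt : St (D m) c x₀ ρ r χ Ψ := by
    refine ⟨hPar.s0 m, hPar.s1 m, hPar.N1 m, hr, hΨd2.mono hsub, ?_, ?_, hnat, hval, haff, hmp⟩
    · intro x hx
      rw [hKk]
      exact (hΨ x (hin x (hsub hx))).2.1
    · intro i hi x hx
      rw [hN1] at hi
      have hi2 : i = 0 ∨ i = 1 := by omega
      rcases hi2 with rfl | rfl
      · rw [zero_mul, STA_F0 _ hsg0]
        exact hKc (ball_subset_closedBall (hΨin x hx))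
      · rw [one_mul, (hΨ x (hin x (hsub hx))).2.1]
        exact hKc (ball_subset_closedBall (hsub hx))
  have hx₀b : x₀ ∈ ball x₀ ρ := mem_ball_self hρ
  obtain ⟨Φ, hΦ⟩ := hcts n C (Am m) (D m) hG (hdis m) x₀ ρ (L * ‖(D m).lam‖) (2 * ‖(D m).lam‖) χ Ψ hρ
    hSt hsg (by
      intro i hi
      rw [hN1] at hi
      have hi2 : i = 0 ∨ i = 1 := by omega
      rcases hi2 with rfl | rfl
      · have h1 : (fun x => (D m).F (0 * (D m).k) (Ψ x)) = Ψ := by
          funext x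
          rw [zero_mul, STA_F0 _ hsg0]
        rw [h1]
        have h2 := hderiv x₀ hx₀b
        have h3 : ‖(1 : ℂ)‖ ≤ ‖deriv Ψ x₀‖ + ‖deriv Ψ x₀ - 1‖ := by
          have := norm_sub_le (deriv Ψ x₀) (deriv Ψ x₀ - 1)
          rwa [sub_sub_cancel] at this
        rw [norm_one] at h3
        linarith
      · have h1 : (fun x => (D m).F (1 * (D m).k) (Ψ x)) =ᶠ[𝓝 x₀] id := by
          filter_upwards [isOpen_ball.mem_nhds hx₀b] with x hx
          rw [one_mul, (hΨ x (hin x (hsub hx))).2.1]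
          rfl
        rw [h1.deriv_eq, deriv_id, norm_one]
        norm_num)
    (fun x hx => hΨ2 x (hsub hx))
    (by
      rw [lt_div_iff₀ (by positivity)] at hl3
      linarith)
    (by
      rw [hParA.de m]
      have h1 : 2 * ‖(D m).lam‖ ≤ C₃ * ‖(D m).lam‖ := mul_le_mul_of_nonneg_right hC₃2 hl0
      have h2 : C₃ * ‖(D m).lam‖ ≤ C₃ * (C' * ‖(D m).lam‖) :=
        mul_le_mul_of_nonneg_left (by nlinarith) (by linarith)
      linarith)
    (by
      intro x hx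
      obtain ⟨hB1, hB2, hB3, hB4⟩ := hBm x (ball_subset_closedBall (hsub hx))
      obtain ⟨hB1', hB2', hB3', hB4'⟩ := hBm (Ψ x) (ball_subset_closedBall (hΨin x hx))
      have hBx : (D m).B x ≠ 0 := by
        intro h
        rw [h, norm_zero] at hB2
        linarith
      have hBpos : 0 < ‖(D m).B x‖ := lt_of_lt_of_le hκ hB2
      have hmv : ‖(D m).B (Ψ x) - (D m).B x‖ ≤ M * ‖Ψ x - x‖ :=
        (convex_ball x₀ (2 * ρ)).norm_image_sub_le_of_norm_deriv_le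
          (fun z hz => (hBm z (ball_subset_closedBall hz)).1)
          (fun z hz => (hBm z (ball_subset_closedBall hz)).2.2.2) (hsub hx) (hΨin x hx)
      have h1 : deriv Ψ x ^ 2 * (D m).B (Ψ x) / (D m).B x =
          deriv Ψ x ^ 2 * ((D m).B (Ψ x) / (D m).B x) := by ring
      rw [h1]
      refine STA_est _ _ _ ρ κ M hρ hκ hM (hderiv x hx) (by linarith) ?_ ?_ hl0
      · have h2 : (D m).B (Ψ x) / (D m).B x - 1 = ((D m).B (Ψ x) - (D m).B x) / (D m).B x := by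
          field_simp
        rw [h2, norm_div, div_le_div_iff₀ hBpos hκ]
        have h3 : ‖(D m).B (Ψ x) - (D m).B x‖ ≤ 2 * M * ‖(D m).lam‖ := by
          have h4 := mul_le_mul_of_nonneg_left (hΨ2 x (hsub hx)) hM
          linarith
        have h5 : 0 ≤ 2 * M * ‖(D m).lam‖ := by positivity
        calc ‖(D m).B (Ψ x) - (D m).B x‖ * κ ≤ 2 * M * ‖(D m).lam‖ * κ :=
              mul_le_mul_of_nonneg_right h3 hκ.le
          _ ≤ 2 * M * ‖(D m).lam‖ * ‖(D m).B x‖ := mul_le_mul_of_nonneg_left hB2 h5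
      · rw [norm_div, div_le_div_iff₀ hBpos hκ]
        calc ‖(D m).B (Ψ x)‖ * κ ≤ M * κ := mul_le_mul_of_nonneg_right hB3' hκ.le
          _ ≤ M * ‖(D m).B x‖ := mul_le_mul_of_nonneg_left hB2 hM)
    (by
      rw [hParA.om m, hN1]
      have h1 : ((1 : ℕ) : ℝ) * (D m).E / (Real.pi * r ^ 2) ≤ C' / (Real.pi * r ^ 2) * ‖(D m).lam‖ := by
        rw [Nat.cast_one, one_mul, div_mul_eq_mul_div]
        exact div_le_div_of_nonneg_right (hA.El m) hpr.le
      have h2 : (L + C' / (Real.pi * r ^ 2)) * ‖(D m).lam‖ ≤ C₃ * ‖(D m).lam‖ :=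
        mul_le_mul_of_nonneg_right (by rw [hC₃]; linarith) hl0
      have h3 : C₃ * ‖(D m).lam‖ ≤ C₃ * (C' * ‖(D m).lam‖) :=
        mul_le_mul_of_nonneg_left (by nlinarith) (by linarith)
      have h4 : (L + C' / (Real.pi * r ^ 2)) * ‖(D m).lam‖ =
        L * ‖(D m).lam‖ + C' / (Real.pi * r ^ 2) * ‖(D m).lam‖ := by ring
      linarith)
  exact ⟨χ, tw (D m) Ψ χ, Φ, hΦ⟩

end XPT
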