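import Pool.Agent.helper74.XP.SpecP

/-!
# Module INV of project xp
-/

set_option autoImplicit false

open Complex Metric Set Filter Topology MeasureTheory MPS PPS Pool.Agent.helper16.Multibrot

noncomputable section

namespace XPP

lemma INV_diff (f : Polynomial ℂ) (m : ℕ) : Differentiable ℂ (it f m) :=
  Differentiable.iterate (Polynomial.differentiable f) m

lemma INV_add (f : Polynomial ℂ) (a b : ℕ) (z : ℂ) : it f (a + b) z = it f a (it f b z) := by
  unfold it
  exact Function.iterate_add_apply _ a b z

lemma INV_chain (f : Polynomial ℂ) (a b : ℕ) (z : ℂ) :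
    deriv (it f (a + b)) z = deriv (it f a) (it f b z) * deriv (it f b) z := by
  have h : it f (a + b) = it f a ∘ it f b := by
    funext w
    exact INV_add f a b w
  rw [h]
  exact deriv_comp z ((INV_diff f a) _) ((INV_diff f b) z)

lemma INV_period {f : Polynomial ℂ} {k : ℕ} {p : ℂ} (hp : Rep f k p) : it f k p = p := by
  have h := Function.iterate_minimalPeriod (f := fun w : ℂ => f.eval w) (x := p)
  rw [hp.1.2] at h
  exact h

lemma INV_ne (f : Polynomial ℂ) (k : ℕ) (p : ℂ) (hp : Rep f k p) (l : ℕ) :
    deriv (it f (k * l)) p ≠ 0 ∧ it f (k * l) p = p := by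
  induction l with
  | zero =>
    constructor
    · have h : it f (k * 0) = id := by
        unfold it
        rw [Nat.mul_zero]
        rfl
      rw [h, deriv_id]
      exact one_ne_zero
    · unfold it
      rw [Nat.mul_zero]
      rfl
  | succ l ih =>
    have h1 : it f k p = p := INV_period hp
    have h2 : deriv (it f k) p ≠ 0 := by
      have h3 := hp.2
      intro h4
      unfold PPS.mlt at h3
      unfold it at h4
      rw [h4, norm_zero] at h3
      linarith
    have h5 : k * (l + 1) = k * l + k := by ring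
    constructor
    · rw [h5, INV_chain, h1]
      exact mul_ne_zero ih.1 h2
    · rw [h5, INV_add, h1]
      exact ih.2

lemma INV_rep (f : Polynomial ℂ) (k : ℕ) (p : ℂ) (hp : Rep f k p) (m : ℕ) : Rep f k (it f m p) := by
  have hk : 0 < k := hp.1.1
  have h1 : it f k p = p := INV_period hp
  have hper : p ∈ Function.periodicPts (fun w : ℂ => f.eval w) :=
    Function.mk_mem_periodicPts hk h1
  refine ⟨⟨hk, ?_⟩, ?_⟩
  · have h2 := Function.minimalPeriod_apply_iterate hper m
    unfold it
    rw [h2]
    exact hp.1.2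
  · have h3 : deriv (it f m) p ≠ 0 := by
      have h4 := (INV_ne f k p hp m).1
      have h5 : m ≤ k * m := Nat.le_mul_of_pos_left m hk
      have h6 : k * m = (k * m - m) + m := (Nat.sub_add_cancel h5).symm
      rw [h6, INV_chain] at h4
      exact right_ne_zero_of_mul h4
    have h7 : deriv (it f k) (it f m p) * deriv (it f m) p = deriv (it f m) p * deriv (it f k) p := by
      rw [← INV_chain, Nat.add_comm, INV_chain, h1]
    have h8 : deriv (it f k) (it f m p) = deriv (it f k) p := by
      apply mul_right_cancel₀ h3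
      rw [h7, mul_comm]
    have h9 : PPS.mlt f k (it f m p) = PPS.mlt f k p := h8
    rw [h9]
    exact hp.2

theorem INV (hLIN : LIN_stmt) (hSMA : SMA_stmt) : INV_stmt := by
  intro f k' b' A hdeg hb' hA
  obtain ⟨d, hd, r, hr, C, hC, hlin⟩ := hLIN f k' b' (by omega) hb'
  have hCA : 0 < C * A := mul_pos hC hA
  have hs : 0 < min r (1 / (C * A)) := lt_min hr (by positivity)
  obtain ⟨t₀, ht₀, hsma⟩ := (hSMA f (min r (1 / (C * A))) hdeg hs).1
  refine ⟨min (d / A) (t₀ / 4), lt_min (by positivity) (by positivity), ?_⟩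
  intro K k p t hp hne hK hKp ht htt hdisc
  by_contra hcon
  have hcon' : ‖p - b'‖ < A * t := lt_of_not_ge hcon
  have htd : t < d / A := lt_of_lt_of_le htt (min_le_left _ _)
  have htt0 : t < t₀ / 4 := lt_of_lt_of_le htt (min_le_right _ _)
  have hpd : ‖p - b'‖ < d := by
    rw [lt_div_iff₀ hA] at htd
    linarith
  obtain ⟨N, H, h1, h2, h3⟩ := hlin p hne hpd
  have hNK : N * k' ≤ K := h3 K hK hKp
  have hfin := hsma (K - N * k') k (it f (N * k') p) p (4 * t) (INV_rep f k p hp _) (by
    intro z hz
    have hzr : ‖z - it f (N * k') p‖ < r := lt_of_lt_of_le hz (min_le_left _ _)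
    have hzs : ‖z - it f (N * k') p‖ < 1 / (C * A) := lt_of_lt_of_le hz (min_le_right _ _)
    obtain ⟨h4, h5⟩ := h2 z hzr
    have h6 : ‖H z - p‖ < t := by
      refine lt_of_le_of_lt h5 ?_
      have h7 : C * ‖p - b'‖ * ‖z - it f (N * k') p‖ ≤ C * (A * t) * ‖z - it f (N * k') p‖ :=
        mul_le_mul_of_nonneg_right (mul_le_mul_of_nonneg_left hcon'.le hC.le) (norm_nonneg _)
      refine lt_of_le_of_lt h7 ?_
      rw [lt_div_iff₀ hCA] at hzs
      have h8 : C * (A * t) * ‖z - it f (N * k') p‖ = t * (‖z - it f (N * k') p‖ * (C * A)) := by ring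
      rw [h8]
      calc t * (‖z - it f (N * k') p‖ * (C * A)) < t * 1 := mul_lt_mul_of_pos_left hzs ht
        _ = t := mul_one t
    have h9 := hdisc (H z - p) h6
    have h10 : p + (H z - p) = H z := by ring
    rw [h10] at h9
    have h11 : it f K (H z) = it f (K - N * k') z := by
      have h12 : K = (K - N * k') + N * k' := (Nat.sub_add_cancel hNK).symm
      conv_lhs => rw [h12]
      rw [INV_add, h4]
    rw [← h11]
    exact h9)
  linarith

end XPP
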